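import Pool.Agent.Helper59_ASD.W2Xa

/-!
# Squad ASD, row W2X: `W12` if `c` and all `σ(d)` are in `pL L`
-/

open scoped BigOperators

set_option autoImplicit false
set_option linter.unusedSectionVars false

noncomputable section

namespace Pool.Agent.PP.SD.H59

open Pool.Agent.Helper51_AWC Pool.Agent.Helper79_WRA Pool.Agent.PP Pool.Agent.PP.KF
open Pool.Agent.PP.K9 Pool.Agent.PP.K9.H97 Pool.Agent.PP.H75 Pool.Agent.PP.T3 Pool.Agent.PP.SO
open Pool.Agent.PP.SO.H82 (memC conj_of_mem mem_of_conj cjW bh_cj)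

attribute [local instance] Ideal.Quotient.field

section maps

variable {V₀ G : Type} [CommGroup V₀] [Group G] {n : ℕ} {F : Type} {B : Bk F V₀ G}
  {L : Set (SO.SS n V₀)} {u : G}

theorem fwd (hu : cU B.i L u) : ∀ v ∈ qL L, ∃ v' ∈ pL L, u * B.i v * u⁻¹ = B.i v' := by
  have hle : qL L ≤ ((pL L).map B.i).comap ((MulAut.conj u).toMonoidHom.comp B.i) := by
    unfold qL
    rw [Subgroup.closure_le]
    rintro q ⟨s, hs, rfl⟩
    exact ⟨s.2.2.1, Subgroup.subset_closure ⟨s, hs, rfl⟩, (hu s hs).symm⟩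
  intro v hv
  obtain ⟨v', h1, h2⟩ := hle hv
  exact ⟨v', h1, h2.symm⟩

theorem bwd (hu : cU B.i L u) : ∀ v' ∈ pL L, ∃ v ∈ qL L, u * B.i v * u⁻¹ = B.i v' := by
  have hle : pL L ≤ ((qL L).map ((MulAut.conj u).toMonoidHom.comp B.i)).comap B.i := by
    unfold pL
    rw [Subgroup.closure_le]
    rintro p ⟨s, hs, rfl⟩
    exact ⟨s.2.2.2, Subgroup.subset_closure ⟨s, hs, rfl⟩, hu s hs⟩
  intro v hv
  obtain ⟨v', h1, h2⟩ := hle hv
  exact ⟨v', h1, h2⟩

theorem cen (hu : cU B.i L u) (y : G) : y ∈ B.C (pL L) ↔ u⁻¹ * y * u ∈ B.C (qL L) := by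
  rw [memC, memC]
  constructor
  · intro h v hv
    obtain ⟨w, hw, e⟩ := fwd hu v hv
    have h1 := h w hw
    rw [← e] at h1
    have h2 : B.i v * (u⁻¹ * y * u) = u⁻¹ * (u * B.i v * u⁻¹ * y) * u := by group
    rw [h2, h1]
    group
  · intro h w hw
    obtain ⟨v, hv, e⟩ := bwd hu w hw
    have h1 := h v hv
    rw [← e]
    have h2 : u * B.i v * u⁻¹ * y = u * (B.i v * (u⁻¹ * y * u)) * u⁻¹ := by group
    rw [h2, h1]
    group

theorem map_EL {E₀ : Subgroup (MulAut V₀)} {σ : MulAut V₀} (hσ : σ ∈ EL E₀ L) :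
    (qL L).map σ.toMonoidHom = pL L := by
  apply le_antisymm
  · rw [Subgroup.map_le_iff_le_comap]
    unfold qL
    rw [Subgroup.closure_le]
    rintro q ⟨s, hs, rfl⟩
    change σ s.2.2.2 ∈ pL L
    rw [hσ.2 s hs]
    exact Subgroup.subset_closure ⟨s, hs, rfl⟩
  · unfold pL
    rw [Subgroup.closure_le]
    rintro p ⟨s, hs, rfl⟩
    exact ⟨s.2.2.2, Subgroup.subset_closure ⟨s, hs, rfl⟩, hσ.2 s hs⟩

theorem aL_sup {κ : V₀} (hκ : κ ∈ pL L) : aL κ L ⊔ Subgroup.zpowers κ = pL L := by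
  apply le_antisymm
  · rw [sup_le_iff, Subgroup.zpowers_le]
    refine ⟨?_, hκ⟩
    unfold aL
    rw [Subgroup.closure_le]
    rintro a ⟨s, hs, rfl⟩
    exact (pL L).mul_mem ((pL L).pow_mem hκ _) (Subgroup.subset_closure ⟨s, hs, rfl⟩)
  · have h1 : κ ∈ aL κ L ⊔ Subgroup.zpowers κ :=
      Subgroup.mem_sup_right (Subgroup.mem_zpowers κ)
    conv_lhs => unfold pL
    rw [Subgroup.closure_le]
    rintro p ⟨s, hs, rfl⟩
    have h2 : κ ^ (s.2.1 : ℕ) * s.2.2.1 ∈ aL κ L ⊔ Subgroup.zpowers κ :=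
      Subgroup.mem_sup_left (Subgroup.subset_closure ⟨s, hs, rfl⟩)
    have h3 := Subgroup.mul_mem _ (Subgroup.inv_mem _ (Subgroup.pow_mem _ h1 (s.2.1 : ℕ))) h2
    rwa [inv_mul_cancel_left] at h3

end maps

/-- W2X -/
theorem w2x (w2a : W2aStmt) (fud : FudStmt) (cjd : CjdStmt) : W2xStmt := by
  intro ℓ _ M _ hM hℓ V₀ G _ _ _ _ E₀ hF B hB n m hPE c d L hL hc hd
  classical
  have := Fintype.ofFinite G
  have := Fintype.ofFinite (MulAut V₀)
  rcases Set.eq_empty_or_nonempty (EL E₀ L) with hE | ⟨σ₀, hσ₀⟩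
  · rw [(w2a ℓ M hM hℓ V₀ G E₀ hF B hB n m hPE c d L).2.1 hL hE, hE, finsum_mem_empty, mul_zero]
  have hdW : d ∈ qL L := by
    have h1 := hd σ₀ hσ₀
    rw [← map_EL hσ₀] at h1
    obtain ⟨v, hv, hvd⟩ := h1
    have h2 : v = d := σ₀.injective hvd
    rwa [← h2]
  obtain ⟨N, hN⟩ : ∃ N : G → ℂ, N = fun κ => (nK B.i m L κ : ℂ) := ⟨_, rfl⟩
  obtain ⟨V, hV⟩ : ∃ V : V₀ → ℂ, V = fun e => ∑ g : G, bh B (pL L) g * N (B.i (c * e) * g) :=
    ⟨_, rfl⟩
  obtain ⟨I, hI⟩ : ∃ I : G → ℂ, I = fun u => if cU B.i L u then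
    ∑ s : G, ∑ t : G, bh B (pL L) s * bh B (qL L) t * N (B.i c * s * (u * (B.i d * t) * u⁻¹))
    else 0 := ⟨_, rfl⟩
  -- the sum over `u`
  have hW12 : W12 B m c d L = ((Nat.card (B.C (pL L)) : ℂ) * Nat.card (B.C (qL L)))⁻¹ *
      ∑ u, I u := by
    unfold W12
    rw [sup_eq_left.2 (Subgroup.zpowers_le.2 hc), sup_eq_left.2 (Subgroup.zpowers_le.2 hdW),
      finsum_eq_sum_of_fintype]
    congr 1
    have h1 : ∀ w : G × G, bh B (pL L) w.1 * bh B (qL L) w.2 *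
        (({z : XX (B.i c * w.1) (B.i d * w.2) | ∀ s ∈ L,
          c12 m B.i z.1.1 z.1.2.1 z.1.2.2 s.1 s.2.1 s.2.2.1 s.2.2.2} :
          Set (XX (B.i c * w.1) (B.i d * w.2))).ncard : ℂ) =
        ∑ u : G, if cU B.i L u then bh B (pL L) w.1 * bh B (qL L) w.2 *
          N (B.i c * w.1 * (u * (B.i d * w.2) * u⁻¹)) else 0 := by
      intro w
      rw [count_eq, Finset.mul_sum, hN]
      refine Finset.sum_congr rfl fun u _ => ?_
      by_cases hu : cU B.i L u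
      · rw [if_pos hu, if_pos hu]
      · rw [if_neg hu, if_neg hu, mul_zero]
    rw [Finset.sum_congr rfl fun w _ => h1 w, Finset.sum_comm]
    refine Finset.sum_congr rfl fun u _ => ?_
    rw [hI]
    by_cases hu : cU B.i L u
    · simp only [if_pos hu]
      rw [Fintype.sum_prod_type]
    · simp only [if_neg hu, Finset.sum_const_zero]
  -- the value of the inner sum
  have hin : ∀ (u : G) (e : V₀), cU B.i L u → u * B.i d * u⁻¹ = B.i e → e ∈ pL L →
      I u = if H75.cj u (B.b (qL L)) = B.b (pL L) then V e else 0 := by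
    intro u e hu he he'
    rw [hI, hV]
    simp only [if_pos hu]
    exact inner_eq hB (cen hu) he he' N
  -- the relation
  obtain ⟨U, hU⟩ : ∃ U : G → Prop, U = fun u =>
    cU B.i L u ∧ H75.cj u (B.b (qL L)) = B.b (pL L) := ⟨_, rfl⟩
  obtain ⟨R, hR⟩ : ∃ R : G → MulAut V₀ → Prop, R = fun u σ =>
    ∀ v ∈ qL L, u * B.i v * u⁻¹ = B.i (σ v) := ⟨_, rfl⟩
  have hR' : ∀ u σ, R u σ ↔ ∀ v ∈ qL L, u * B.i v * u⁻¹ = B.i (σ v) := by
    intro u σ
    rw [hR]
  have hU' : ∀ u, U u ↔ cU B.i L u ∧ H75.cj u (B.b (qL L)) = B.b (pL L) := by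
    intro u
    rw [hU]
  have hqm : ∀ s ∈ L, s.2.2.2 ∈ qL L := fun s hs => Subgroup.subset_closure ⟨s, hs, rfl⟩
  obtain ⟨A, hA⟩ : ∃ A : Finset (MulAut V₀), ∀ σ, σ ∈ A ↔ σ ∈ EL E₀ L :=
    ⟨Finset.univ.filter (· ∈ EL E₀ L), fun σ => by simp⟩
  have hval : ∀ u σ, U u → σ ∈ A → R u σ → I u = V (σ d) := by
    intro u σ hu hσ hr
    rw [hU'] at hu
    rw [hR'] at hr
    rw [hin u (σ d) hu.1 (hr d hdW) (hd σ ((hA σ).1 hσ)), if_pos hu.2]
  -- no `σ`
  have hzero : ∀ u, ¬ U u → I u = 0 := by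
    intro u hu
    by_cases h1 : cU B.i L u
    · obtain ⟨e, he, he'⟩ := fwd h1 d hdW
      rw [hin u e h1 he' he, if_neg]
      intro h2
      exact hu ((hU' u).2 ⟨h1, h2⟩)
    · rw [hI]
      simp only [if_neg h1]
  -- the number of the `σ`
  have hcnt1 : ∀ u, U u → (A.filter fun σ => R u σ).card = Nat.card (St E₀ (qL L)) := by
    intro u hu
    rw [hU'] at hu
    obtain ⟨hu1, hu2⟩ := hu
    have hf : ∀ v ∈ qL L, ∃ v' ∈ pL L, u * B.i v * u⁻¹ = B.i v' := fwd hu1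
    obtain ⟨f, hf'⟩ : ∃ f : V₀ → V₀, ∀ v ∈ qL L, f v ∈ pL L ∧ u * B.i v * u⁻¹ = B.i (f v) := by
      refine ⟨fun v => if h : v ∈ qL L then (hf v h).choose else 1, fun v hv => ?_⟩
      simp only [dif_pos hv]
      exact (hf v hv).choose_spec
    obtain ⟨σ, hσ, hfσ, -⟩ := fud ℓ M hM V₀ G E₀ hF B hB (pL L) (qL L) u f
      (fun v hv => (hf' v hv).2) (fun v hv => (hf' v hv).1) (fun v hv => by
        obtain ⟨v', hv', e⟩ := bwd hu1 v hv
        refine ⟨v', hv', ?_⟩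
        apply hB.inj
        rw [← (hf' v' hv').2, e]) hu2
    have hr : ∀ v ∈ qL L, u * B.i v * u⁻¹ = B.i (σ v) := by
      intro v hv
      rw [(hf' v hv).2, hfσ v hv]
    have hσE : σ ∈ EL E₀ L := by
      refine ⟨hσ, fun s hs => ?_⟩
      apply hB.inj
      rw [← hr _ (hqm s hs)]
      exact hu1 s hs
    have e1 : (A.filter fun σ' => R u σ').card = Nat.card {σ' // σ' ∈ A.filter fun σ' => R u σ'} := by
      rw [Nat.card_eq_fintype_card, Fintype.card_coe]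
    rw [e1]
    refine Nat.card_congr
      { toFun := fun σ' => ⟨σ⁻¹ * σ'.1, ?_, ?_⟩
        invFun := fun τ => ⟨σ * τ.1, ?_⟩
        left_inv := fun σ' => Subtype.ext (mul_inv_cancel_left _ _)
        right_inv := fun τ => Subtype.ext (inv_mul_cancel_left _ _) }
    · have h1 := (Finset.mem_filter.1 σ'.2).1
      exact E₀.mul_mem (E₀.inv_mem hσ) ((hA _).1 h1).1
    · intro v hv
      have h1 := (hR' _ _).1 (Finset.mem_filter.1 σ'.2).2 v hv
      rw [hr v hv] at h1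
      have h2 := hB.inj h1
      rw [MulAut.mul_apply, ← h2, MulAut.inv_apply_self]
    · rw [Finset.mem_filter, hA, hR']
      obtain ⟨hτ1, hτ2⟩ := τ.2
      refine ⟨⟨E₀.mul_mem hσ hτ1, fun s hs => ?_⟩, fun v hv => ?_⟩
      · rw [MulAut.mul_apply, hτ2 _ (hqm s hs), hσE.2 s hs]
      · rw [MulAut.mul_apply, hτ2 v hv, hr v hv]
  -- the number of the `u`
  have hcnt2 : ∀ σ ∈ A, (Finset.univ.filter fun u => U u ∧ R u σ).card =
      Nat.card (B.C (qL L)) := by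
    intro σ hσ
    rw [hA] at hσ
    obtain ⟨t, ht, htσ⟩ := hB.sur σ hσ.1
    have hkey : ∀ z ∈ B.C (qL L), ∀ v ∈ qL L, (t * z) * B.i v * (t * z)⁻¹ = B.i (σ v) := by
      intro z hz v hv
      rw [← htσ v]
      have h1 := conj_of_mem B hz hv
      have h2 : (t * z) * B.i v * (t * z)⁻¹ = t * (z * B.i v * z⁻¹) * t⁻¹ := by group
      rw [h2, h1]
    have hcj : ∀ z ∈ B.C (qL L), H75.cj (t * z) (B.b (qL L)) = B.b (pL L) := by
      intro z hz
      rw [← cj_cj, ((hB.lb (qL L)).blk.ix).inv hz]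
      have h1 := (cjd ℓ M hM hℓ V₀ G E₀ hF B hB σ hσ.1 t ht htσ (qL L)).1
      rw [map_EL hσ] at h1
      exact h1
    have e1 : (Finset.univ.filter fun u => U u ∧ R u σ).card =
        Nat.card {u // u ∈ Finset.univ.filter fun u => U u ∧ R u σ} := by
      rw [Nat.card_eq_fintype_card, Fintype.card_coe]
    rw [e1]
    refine Nat.card_congr
      { toFun := fun u => ⟨t⁻¹ * u.1, ?_⟩
        invFun := fun z => ⟨t * z.1, ?_⟩
        left_inv := fun u => Subtype.ext (mul_inv_cancel_left _ _)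
        right_inv := fun z => Subtype.ext (inv_mul_cancel_left _ _) }
    · have h1 := (hR' _ _).1 (Finset.mem_filter.1 u.2).2.2
      apply mem_of_conj
      intro v hv
      have h2 : t⁻¹ * u.1 * B.i v * (t⁻¹ * u.1)⁻¹ = t⁻¹ * (u.1 * B.i v * u.1⁻¹) * t := by group
      rw [h2, h1 v hv, ← htσ v]
      group
    · rw [Finset.mem_filter, hU', hR']
      refine ⟨Finset.mem_univ _, ⟨fun s hs => ?_, hcj z.1 z.2⟩, hkey z.1 z.2⟩
      rw [hkey z.1 z.2 _ (hqm s hs), hσ.2 s hs]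
  -- double counting
  have hdc : (Nat.card (St E₀ (qL L)) : ℂ) * ∑ u, I u =
      Nat.card (B.C (qL L)) * ∑ σ ∈ A, V (σ d) := by
    have h1 : ∀ u, (Nat.card (St E₀ (qL L)) : ℂ) * I u =
        ∑ σ ∈ A, if U u ∧ R u σ then V (σ d) else 0 := by
      intro u
      by_cases hu : U u
      · have h2 : ∀ σ ∈ A, (if U u ∧ R u σ then V (σ d) else 0) = if R u σ then I u else 0 := by
          intro σ hσ
          by_cases hr : R u σ
          · rw [if_pos ⟨hu, hr⟩, if_pos hr, hval u σ hu hσ hr]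
          · rw [if_neg (fun h => hr h.2), if_neg hr]
        rw [Finset.sum_congr rfl h2, ← Finset.sum_filter, Finset.sum_const, hcnt1 u hu,
          nsmul_eq_mul]
      · rw [hzero u hu, mul_zero]
        refine (Finset.sum_eq_zero fun σ _ => ?_).symm
        rw [if_neg (fun h => hu h.1)]
    rw [Finset.mul_sum, Finset.sum_congr rfl fun u _ => h1 u, Finset.sum_comm, Finset.mul_sum]
    refine Finset.sum_congr rfl fun σ hσ => ?_
    rw [← Finset.sum_filter, Finset.sum_const, hcnt2 σ hσ, nsmul_eq_mul]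
  -- the numbers `HK`
  have hHK : ∀ σ ∈ A, HK B m (c * σ d) L = (Nat.card (B.C (pL L)) : ℂ)⁻¹ * V (σ d) := by
    intro σ hσ
    have hκ : c * σ d ∈ pL L := (pL L).mul_mem hc (hd σ ((hA σ).1 hσ))
    unfold HK
    rw [aL_sup hκ, finsum_eq_sum_of_fintype, hV]
    congr 1
    refine Finset.sum_congr rfl fun t _ => ?_
    by_cases ht : bh B (pL L) t = 0
    · rw [ht, zero_mul, zero_mul]
    · have htC : t ∈ B.C (pL L) := by
        by_contra h
        exact ht (SO.H10L.bh_supp B _ t h)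
      have htR : Reg ℓ t := by
        by_contra h
        exact ht (SD.H82.bh_sing hM hB _ t h)
      have hp : (B.i (c * σ d) * t) ^ m = B.i (c * σ d) := SD.H82.pow_m hF hPE hκ htC htR
      congr 1
      rw [hN]
      congr 1
      unfold nK cK
      congr 1
      ext w
      simp only [hp, ← map_pow, ← map_mul]
  have hfs : ∑ᶠ σ ∈ EL E₀ L, HK B m (c * σ d) L = ∑ σ ∈ A, HK B m (c * σ d) L := by
    have h1 : (A : Set (MulAut V₀)) = EL E₀ L := by
      ext σ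
      exact hA σ
    rw [← h1, finsum_mem_coe_finset]
  rw [hW12, hfs, Finset.sum_congr rfl hHK, ← Finset.mul_sum]
  have n1 : (Nat.card (B.C (pL L)) : ℂ) ≠ 0 := by
    exact_mod_cast (Nat.card_pos (α := B.C (pL L))).ne'
  have n2 : (Nat.card (B.C (qL L)) : ℂ) ≠ 0 := by
    exact_mod_cast (Nat.card_pos (α := B.C (qL L))).ne'
  have n3 : (Nat.card (St E₀ (qL L)) : ℂ) ≠ 0 := by
    exact_mod_cast (Nat.card_pos (α := St E₀ (qL L))).ne'
  have h4 : ∑ u, I u = (Nat.card (St E₀ (qL L)) : ℂ)⁻¹ *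
      (Nat.card (B.C (qL L)) * ∑ σ ∈ A, V (σ d)) := by
    rw [← hdc, inv_mul_cancel_left₀ n3]
  rw [h4]
  field_simp

end Pool.Agent.PP.SD.H59
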