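import Pool.Agent.ASD.Stmts4
import Pool.Agent.Helper82_ASD.GPD
import Pool.Agent.Helper79_ASO.WTHA

/-!
# Squad ASD, row W2X, part 1: the inner sums
-/

open scoped BigOperators

set_option autoImplicit false
set_option linter.unusedSectionVars false

noncomputable section

namespace Pool.Agent.PP.SD.H59

open Pool.Agent.Helper51_AWC Pool.Agent.Helper79_WRA Pool.Agent.PP Pool.Agent.PP.KF
open Pool.Agent.PP.K9 Pool.Agent.PP.K9.H97 Pool.Agent.PP.H75 Pool.Agent.PP.T3 Pool.Agent.PP.SO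
open Pool.Agent.PP.SO.H82 (memC conj_of_mem mem_of_conj cjW bh_cj)

attribute [local instance] Ideal.Quotient.field

section cnt

variable {V₀ G : Type} [CommGroup V₀] [Group G] {n : ℕ}

/-- the conditions for `(x, y)` -/
def cK (i : V₀ →* G) (m : ℕ) (L : Set (SO.SS n V₀)) (κ x y : G) : Prop :=
  ∀ s ∈ L, (κ ^ m) ^ (s.2.1 : ℕ) * i s.2.2.1 * x = x * ((κ ^ m) ^ (s.2.1 : ℕ) * i s.2.2.1) ∧
    y⁻¹ * ((κ ^ m) ^ (s.2.1 : ℕ) * i s.2.2.1) * y =
      ((κ ^ m) ^ (s.2.1 : ℕ) * i s.2.2.1) * (x ^ m) ^ (s.1 : ℕ)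

/-- the number of the pairs with the commutator `κ` and the conditions -/
def nK (i : V₀ →* G) (m : ℕ) (L : Set (SO.SS n V₀)) (κ : G) : ℕ :=
  {w : G × G | SO.kap w.1 w.2 = κ ∧ cK i m L κ w.1 w.2}.ncard

open Classical in
theorem nK_eq [Fintype G] (i : V₀ →* G) (m : ℕ) (L : Set (SO.SS n V₀)) (κ : G) :
    (nK i m L κ : ℂ) = ∑ x : G, ∑ y : G, if SO.kap x y = κ ∧ cK i m L κ x y then (1 : ℂ) else 0 := by
  have h1 : nK i m L κ =
      (Finset.univ.filter fun w : G × G => SO.kap w.1 w.2 = κ ∧ cK i m L κ w.1 w.2).card := by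
    unfold nK
    rw [← Set.ncard_coe_finset]
    congr 1
    ext w
    simp only [Finset.coe_filter, Finset.mem_univ, true_and]
  rw [h1, ← Finset.sum_boole, Fintype.sum_prod_type]

theorem c12_iff (i : V₀ →* G) (m k j : ℕ) (p q : V₀) (x y u : G) :
    c12 m i x y u j k p q ↔ (u * i q * u⁻¹ = i p ∧
      ((SO.kap x y ^ m) ^ k * i p * x = x * ((SO.kap x y ^ m) ^ k * i p) ∧
        y⁻¹ * ((SO.kap x y ^ m) ^ k * i p) * y = ((SO.kap x y ^ m) ^ k * i p) * (x ^ m) ^ j)) := by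
  unfold c12
  generalize (SO.kap x y ^ m) ^ k = K
  have h1 : K⁻¹ * x * K = i p * x * (i p)⁻¹ ↔ K * i p * x = x * (K * i p) := by
    constructor
    · intro h
      calc K * i p * x = K * (i p * x * (i p)⁻¹) * i p := by group
        _ = K * (K⁻¹ * x * K) * i p := by rw [h]
        _ = x * (K * i p) := by group
    · intro h
      calc K⁻¹ * x * K = K⁻¹ * (x * (K * i p)) * (i p)⁻¹ := by group
        _ = K⁻¹ * (K * i p * x) * (i p)⁻¹ := by rw [h]
        _ = i p * x * (i p)⁻¹ := by group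
  have h3 : u = i p * u * (i q)⁻¹ ↔ u * i q * u⁻¹ = i p := by
    constructor
    · intro h
      calc u * i q * u⁻¹ = (i p * u * (i q)⁻¹) * i q * u⁻¹ := by rw [← h]
        _ = i p := by group
    · intro h
      rw [← h]
      group
  rw [h1, h3]
  constructor
  · rintro ⟨ha, hb, hc⟩
    refine ⟨hc, ha, ?_⟩
    have hD : (K * i p) * (x ^ m) ^ j = (x ^ m) ^ j * (K * i p) :=
      (((show Commute (K * i p) x from ha).pow_right m).pow_right j).eq
    rw [hD]
    calc y⁻¹ * (K * i p) * y = y⁻¹ * K * (i p * y * (i p)⁻¹) * i p := by group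
      _ = y⁻¹ * K * (K⁻¹ * (y * (x ^ m) ^ j) * K) * i p := by rw [hb]
      _ = (x ^ m) ^ j * (K * i p) := by group
  · rintro ⟨hc, ha, hb⟩
    refine ⟨ha, ?_, hc⟩
    have hD : (K * i p) * (x ^ m) ^ j = (x ^ m) ^ j * (K * i p) :=
      (((show Commute (K * i p) x from ha).pow_right m).pow_right j).eq
    rw [hD] at hb
    calc K⁻¹ * (y * (x ^ m) ^ j) * K = K⁻¹ * y * ((x ^ m) ^ j * (K * i p)) * (i p)⁻¹ := by group
      _ = K⁻¹ * y * (y⁻¹ * (K * i p) * y) * (i p)⁻¹ := by rw [hb]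
      _ = i p * y * (i p)⁻¹ := by group

/-- the condition for `u` -/
def cU (i : V₀ →* G) (L : Set (SO.SS n V₀)) (u : G) : Prop :=
  ∀ s ∈ L, u * i s.2.2.2 * u⁻¹ = i s.2.2.1

open Classical in
theorem count_eq [Fintype G] (i : V₀ →* G) (m : ℕ) (L : Set (SO.SS n V₀)) (g h : G) :
    (({z : XX g h | ∀ s ∈ L, c12 m i z.1.1 z.1.2.1 z.1.2.2 s.1 s.2.1 s.2.2.1 s.2.2.2} :
      Set (XX g h)).ncard : ℂ) =
      ∑ u : G, if cU i L u then (nK i m L (g * (u * h * u⁻¹)) : ℂ) else 0 := by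
  rw [SO.H79.xx_count g h (fun x y u => ∀ s ∈ L, c12 m i x y u s.1 s.2.1 s.2.2.1 s.2.2.2),
    Fintype.sum_prod_type]
  have h1 : ∀ x : G, ∑ v : G × G, (if x * v.1 * x⁻¹ * v.1⁻¹ = g * (v.2 * h * v.2⁻¹) ∧
      (∀ s ∈ L, c12 m i x v.1 v.2 s.1 s.2.1 s.2.2.1 s.2.2.2) then (1 : ℂ) else 0) =
      ∑ u : G, ∑ y : G, (if x * y * x⁻¹ * y⁻¹ = g * (u * h * u⁻¹) ∧
      (∀ s ∈ L, c12 m i x y u s.1 s.2.1 s.2.2.1 s.2.2.2) then (1 : ℂ) else 0) := fun x =>
    Fintype.sum_prod_type_right _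
  rw [Finset.sum_congr rfl fun x _ => h1 x, Finset.sum_comm]
  refine Finset.sum_congr rfl fun u _ => ?_
  by_cases hu : cU i L u
  · rw [if_pos hu, nK_eq]
    refine Finset.sum_congr rfl fun x _ => Finset.sum_congr rfl fun y _ => ?_
    congr 1
    rw [eq_iff_iff]
    constructor
    · rintro ⟨h2, h3⟩
      refine ⟨h2, fun s hs => ?_⟩
      have h4 := ((c12_iff i m _ _ _ _ x y u).1 (h3 s hs)).2
      have h5 : SO.kap x y = g * (u * h * u⁻¹) := h2
      rw [h5] at h4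
      exact h4
    · rintro ⟨h2, h3⟩
      refine ⟨h2, fun s hs => ?_⟩
      have h5 : SO.kap x y = g * (u * h * u⁻¹) := h2
      refine (c12_iff i m _ _ _ _ x y u).2 ⟨hu s hs, ?_⟩
      rw [h5]
      exact h3 s hs
  · rw [if_neg hu]
    refine Finset.sum_eq_zero fun x _ => Finset.sum_eq_zero fun y _ => ?_
    rw [if_neg]
    rintro ⟨-, h3⟩
    exact hu fun s hs => ((c12_iff i m _ _ _ _ x y u).1 (h3 s hs)).1

end cnt

section blk

variable {V₀ G : Type} [CommGroup V₀] [Group G] {ℓ : ℕ}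
  {M : Ideal (integralClosure ℤ ℂ)} [M.IsMaximal] {E₀ : Subgroup (MulAut V₀)}
  {B : Bk (FF M) V₀ G}

/-- the product of the lifts of two blocks -/
theorem mul_lift [Finite G] (hB : Sb ℓ M E₀ B) {W W' : Subgroup V₀} {w : G}
    (hC : ∀ x, x ∈ B.C W ↔ w⁻¹ * x * w ∈ B.C W') [Decidable (H75.cj w (B.b W') = B.b W)] :
    mulF (bh B W) (H75.cj w (bh B W')) = if H75.cj w (B.b W') = B.b W then bh B W else 0 := by
  have := Fintype.ofFinite (B.C W)
  have hs1 : ∀ z, z ∉ B.C W → bh B W z = 0 := fun z hz => SO.H10L.bh_supp B W z hz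
  have hs2 : ∀ z, z ∉ B.C W → H75.cj w (bh B W') z = 0 := by
    intro z hz
    change bh B W' (w⁻¹ * z * w) = 0
    apply SO.H10L.bh_supp
    intro h
    exact hz ((hC z).2 h)
  have hbW : (fun t : B.C W => bh B W t) = eh M (fun t : B.C W => B.b W t) := by
    funext t
    unfold bh PP.ext0
    rw [dif_pos t.2]
  have hB1 : Bx (B.C W) (B.b W) := (hB.lb W).blk
  have hB2 : Bx (B.C W) (H75.cj w (B.b W')) := T3.H62.bx_cj hC (hB.lb W').blk
  split_ifs with h
  · apply eq_of_res (mulF_supp (B.C W) hs1 hs2) hs1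
    rw [mulF_res (B.C W) _ hs1, bh_cj hB hC, h, hbW]
    exact (KF.H25.eh_idem _).2
  · apply eq_of_res (mulF_supp (B.C W) hs1 hs2) (fun _ _ => rfl)
    rw [mulF_res (B.C W) _ hs1, bh_cj hB hC, hbW]
    refine T3.H62.eh_orth hB1.blk.1 hB2.blk.1 ?_
    rcases hB1.dich hB2 with h3 | h3
    · exact absurd h3.symm h
    · rw [← mulF_res (B.C W) (H75.cj w (B.b W')) hB1.supp, h3]
      rfl

/-- the inner sum -/
theorem inner_eq [Fintype G] (hB : Sb ℓ M E₀ B) {W W' : Subgroup V₀} {u : G} {c d d' : V₀}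
    (hC : ∀ x, x ∈ B.C W ↔ u⁻¹ * x * u ∈ B.C W') (hd : u * B.i d * u⁻¹ = B.i d') (hd' : d' ∈ W)
    (N : G → ℂ) [Decidable (H75.cj u (B.b W') = B.b W)] :
    ∑ s : G, ∑ t : G, bh B W s * bh B W' t * N (B.i c * s * (u * (B.i d * t) * u⁻¹)) =
      if H75.cj u (B.b W') = B.b W then ∑ g : G, bh B W g * N (B.i (c * d') * g) else 0 := by
  have h1 : ∀ s : G, ∑ t : G, bh B W s * bh B W' t *
      N (B.i c * s * (u * (B.i d * t) * u⁻¹)) =
      ∑ g : G, bh B W s * H75.cj u (bh B W') (s⁻¹ * g) * N (B.i (c * d') * g) := by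
    intro s
    by_cases hs : s ∈ B.C W
    · let e : G ≃ G :=
        { toFun := fun g => u⁻¹ * (s⁻¹ * g) * u
          invFun := fun t => s * (u * t * u⁻¹)
          left_inv := fun g => by
            show s * (u * (u⁻¹ * (s⁻¹ * g) * u) * u⁻¹) = g
            group
          right_inv := fun t => by
            show u⁻¹ * (s⁻¹ * (s * (u * t * u⁻¹))) * u = t
            group }
      rw [← Equiv.sum_comp e]
      refine Finset.sum_congr rfl fun g _ => ?_
      change bh B W s * bh B W' (u⁻¹ * (s⁻¹ * g) * u) *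
        N (B.i c * s * (u * (B.i d * (u⁻¹ * (s⁻¹ * g) * u)) * u⁻¹)) = _
      have h2 : u * (B.i d * (u⁻¹ * (s⁻¹ * g) * u)) * u⁻¹ =
          (u * B.i d * u⁻¹) * (s⁻¹ * g) := by group
      have h3 : B.i c * s * (B.i d' * (s⁻¹ * g)) = B.i (c * d') * g := by
        have h4 := (memC B W s).1 hs d' hd'
        calc B.i c * s * (B.i d' * (s⁻¹ * g)) = B.i c * (s * B.i d') * (s⁻¹ * g) := by group
          _ = B.i c * (B.i d' * s) * (s⁻¹ * g) := by rw [h4]
          _ = B.i c * B.i d' * g := by group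
          _ = B.i (c * d') * g := by rw [map_mul]
      rw [h2, hd, h3]
      rfl
    · rw [SO.H10L.bh_supp B W s hs]
      simp only [zero_mul, Finset.sum_const_zero]
  rw [Finset.sum_congr rfl fun s _ => h1 s, Finset.sum_comm]
  have h2 : ∀ g : G, ∑ s : G, bh B W s * H75.cj u (bh B W') (s⁻¹ * g) * N (B.i (c * d') * g) =
      mulF (bh B W) (H75.cj u (bh B W')) g * N (B.i (c * d') * g) := by
    intro g
    rw [← Finset.sum_mul]
    congr 1
    unfold mulF
    rw [finsum_eq_sum_of_fintype]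
  rw [Finset.sum_congr rfl fun g _ => h2 g, mul_lift hB hC]
  split_ifs with h
  · rfl
  · exact Finset.sum_eq_zero fun g _ => by
      change (0 : ℂ) * _ = 0
      rw [zero_mul]

end blk

end Pool.Agent.PP.SD.H59
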